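import Pool.Agent.H93.KC.Targets

open Set Metric Filter Topology Bundle Manifold MeasureTheory
open scoped ContDiff

noncomputable section

namespace Pool.Agent.H28.KC

open Pool.Agent.H93.KC

lemma compact_level (t : Tower) (j : ℕ) (r : ℝ) :
    @IsCompact t.Mfd (inferInstance : TopologicalSpace t.Mfd) {x : t.Mfd | ‖t.c j x‖ ≤ r} := by
  have h1 : {x : t.Mfd | ‖t.c j x‖ ≤ r} = (t.ci j '' closedBall (0 : E) r : Set E) := by
    ext x
    constructor
    · intro hx
      exact ⟨t.c j x, by simpa using hx, t.left j x⟩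
    · rintro ⟨y, hy, rfl⟩
      show ‖t.c j (t.ci j y)‖ ≤ r
      rw [t.right]
      simpa using hy
  rw [h1]
  exact (isCompact_closedBall (0 : E) r).image (t.smooth' j).continuous

theorem comp : T_COMP := by
  intro t m hm h
  refine EMetric.complete_of_cauchySeq_tendsto ?_
  intro x hx
  obtain ⟨N, hN⟩ := EMetric.cauchySeq_iff.1 hx 1 one_pos
  obtain ⟨j, hj⟩ := t.exh (x N)
  have hK : @IsCompact t.Mfd m.toUniformSpace.toTopologicalSpace
      {x : t.Mfd | ‖t.c (j + 1) x‖ ≤ t.R (j + 1)} := by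
    rw [hm]
    exact compact_level t (j + 1) _
  have hmem : ∀ n, x (n + N) ∈ {x : t.Mfd | ‖t.c (j + 1) x‖ ≤ t.R (j + 1)} := by
    intro n
    by_contra hcon
    have h1 : t.R (j + 1) ≤ ‖t.c (j + 1) (x (n + N))‖ := by
      simp only [Set.mem_setOf_eq, not_le] at hcon
      exact hcon.le
    have h2 := h j (x N) (x (n + N)) hj.le h1
    have h3 := hN N le_rfl (n + N) (by omega)
    exact absurd h3 (not_lt.2 h2)
  have hcau : CauchySeq (fun n => x (n + N)) :=
    hx.comp_tendsto (tendsto_add_atTop_nat N)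
  obtain ⟨a, -, ha⟩ := cauchySeq_tendsto_of_isComplete hK.isComplete hmem hcau
  exact ⟨a, (tendsto_add_atTop_iff_nat N).1 ha⟩

end Pool.Agent.H28.KC
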