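import Pool.Agent.H93.KC.Targets

open Set Metric Filter Topology Bundle Manifold MeasureTheory
open scoped ContDiff ENNReal

noncomputable section

namespace Pool.Agent.H28.KC

open Pool.Agent.H93.KC

lemma contMDiff_c (t : Tower) (j : ℕ) :
    ContMDiff 𝓘(ℝ, ℂ × ℂ) 𝓘(ℝ, ℂ × ℂ) ∞ (t.chart j : t.Mfd → E) := by
  intro x
  refine contMDiffAt_iff.2 ⟨(t.smooth j).continuous.continuousAt, ?_⟩
  have h : ContDiffWithinAt ℝ ∞ (fun y' => t.c j (t.ci (t.idx x) y'))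
      (range 𝓘(ℝ, ℂ × ℂ)) (extChartAt 𝓘(ℝ, ℂ × ℂ) x x) :=
    ((t.smooth j).comp (t.smooth' (t.idx x))).contDiffAt.contDiffWithinAt
  exact h

/-- crossing lemma -/
lemma crossing (b : ℝ → ℝ) (hb : Continuous b) (ρ R : ℝ) (hρR : ρ < R) (h0 : b 0 ≤ ρ)
    (h1 : R ≤ b 1) : ∃ s₁ t₁ : ℝ, 0 ≤ s₁ ∧ s₁ ≤ t₁ ∧ t₁ ≤ 1 ∧ b s₁ ≤ ρ ∧ R ≤ b t₁ ∧
      ∀ s ∈ Ioo s₁ t₁, ρ < b s ∧ b s < R := by
  have hc1 : IsCompact (Icc (0 : ℝ) 1 ∩ {s | R ≤ b s}) :=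
    isCompact_Icc.inter_right (isClosed_le continuous_const hb)
  obtain ⟨t₁, ht₁, ht₁min⟩ := hc1.exists_isLeast ⟨1, ⟨by simp, h1⟩⟩
  have hc2 : IsCompact (Icc (0 : ℝ) t₁ ∩ {s | b s ≤ ρ}) :=
    isCompact_Icc.inter_right (isClosed_le hb continuous_const)
  obtain ⟨s₁, hs₁, hs₁max⟩ := hc2.exists_isGreatest ⟨0, ⟨by simpa using ht₁.1.1, h0⟩⟩
  refine ⟨s₁, t₁, hs₁.1.1, hs₁.1.2, ht₁.1.2, hs₁.2, ht₁.2, fun s hs => ⟨?_, ?_⟩⟩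
  · by_contra hcon
    have := hs₁max ⟨⟨hs₁.1.1.trans hs.1.le, hs.2.le⟩, not_lt.1 hcon⟩
    linarith [hs.1]
  · by_contra hcon
    have := ht₁min ⟨⟨hs₁.1.1.trans hs.1.le, hs.2.le.trans ht₁.1.2⟩, not_lt.1 hcon⟩
    linarith [hs.2]

theorem dist (hT : T_TRANS) (hM : T_MFD) : T_DIST := by
  intro t _ _ hin j x y hx hy
  by_contra hcon
  push Not at hcon
  obtain ⟨γ, hγ0, hγ1, hγs, hlen, -, -⟩ :=
    exists_lt_locally_constant_of_riemannianEDist_lt hcon zero_lt_one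
  obtain ⟨ρ, m, hm, h1, h2, h3⟩ := t.far j
  have hfs : ContDiff ℝ 1 (fun s => t.c (j + 1) (γ s)) := by
    have h := ((contMDiff_c t (j + 1)).of_le (m := 1) (by exact_mod_cast le_top)).comp hγs
    exact contMDiff_iff_contDiff.1 h
  have hρR : ρ < t.R (j + 1) := by
    by_contra h
    push Not at h
    have : m * (t.R (j + 1) - ρ) ≤ 0 := mul_nonpos_of_nonneg_of_nonpos hm.le (by linarith)
    linarith
  obtain ⟨s₁, t₁, hs0, hst, ht1, hbs, hbt, hI⟩ := crossing (fun s => ‖t.c (j + 1) (γ s)‖)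
    hfs.continuous.norm ρ (t.R (j + 1)) hρR (by rw [hγ0]; exact h2 x hx) (by rw [hγ1]; exact hy)
  have key : ∀ s ∈ Ioo s₁ t₁, ENNReal.ofReal m * ‖deriv (fun s => t.c (j + 1) (γ s)) s‖ₑ
      ≤ ‖mfderiv 𝓘(ℝ, ℝ) 𝓘(ℝ, ℂ × ℂ) γ s 1‖ₑ := by
    intro s hs
    obtain ⟨ha, hb⟩ := hI s hs
    set k := t.idx (γ s) with hk
    have hk1 : ‖t.c k (γ s)‖ < t.R k := t.idx_spec (γ s)
    have hgg : t.ci k (t.c k (γ s)) = (γ s : E) := t.left k (γ s)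
    have hk2 : ‖t.c (j + 1) (t.ci k (t.c k (γ s)))‖ < t.R (j + 1) :=
      (congrArg (fun z : E => ‖t.c (j + 1) z‖) hgg).trans_lt hb
    have hTr := (hT t k (j + 1) (t.c k (γ s)) hk1 hk2).2
    obtain ⟨hd, hd'⟩ := (hM t (j + 1)).2 (γ s) hb
    set v : TangentSpace 𝓘(ℝ, ℂ × ℂ) (γ s) := mfderiv 𝓘(ℝ, ℝ) 𝓘(ℝ, ℂ × ℂ) γ s 1 with hv
    have hγd : MDifferentiableAt 𝓘(ℝ, ℝ) 𝓘(ℝ, ℂ × ℂ) γ s := (hγs s).mdifferentiableAt one_ne_zero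
    have hder : deriv (fun s => t.c (j + 1) (γ s)) s
        = fderiv ℂ (fun y' => t.c (j + 1) (t.ci k y')) (t.c k (γ s)) (v : ℂ × ℂ) := by
      rw [← hd' v]
      have h5 := mfderiv_comp (I := 𝓘(ℝ, ℝ)) (I' := 𝓘(ℝ, ℂ × ℂ)) (I'' := 𝓘(ℝ, ℂ × ℂ)) s hd hγd
      have h6 : deriv (fun s => t.c (j + 1) (γ s)) s
          = mfderiv 𝓘(ℝ, ℝ) 𝓘(ℝ, ℂ × ℂ) ((t.chart (j + 1)) ∘ γ) s 1 := by
        rw [mfderiv_eq_fderiv]
        rfl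
      rw [h6, h5]
      rfl
    have hnorm : ‖v‖ ^ 2 = herm (t.u k) (t.c k (γ s)) (v : ℂ × ℂ) (v : ℂ × ℂ) := by
      rw [← real_inner_self_eq_norm_sq]
      exact hin (γ s) v v
    have hnorm' := hnorm.trans (hTr v v).symm
    have h7 := h3 (t.c (j + 1) (t.ci k (t.c k (γ s))))
      (ha.le.trans_eq (congrArg (fun z : E => ‖t.c (j + 1) z‖) hgg).symm)
      (fderiv ℂ (fun y' => t.c (j + 1) (t.ci k y')) (t.c k (γ s)) (v : ℂ × ℂ))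
    have h7' := h7.trans_eq hnorm'.symm
    rw [← hder] at h7'
    have h8 : m * ‖deriv (fun s => t.c (j + 1) (γ s)) s‖ ≤ ‖v‖ := by
      have : (m * ‖deriv (fun s => t.c (j + 1) (γ s)) s‖) ^ 2 ≤ ‖v‖ ^ 2 := by
        rw [mul_pow]; exact h7'
      exact (sq_le_sq₀ (by positivity) (norm_nonneg _)).1 this
    rw [← ofReal_norm, ← ofReal_norm, ← ENNReal.ofReal_mul hm.le]
    exact ENNReal.ofReal_le_ofReal h8
  have hstep : ENNReal.ofReal m * ‖t.c (j + 1) (γ t₁) - t.c (j + 1) (γ s₁)‖ₑ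
      ≤ pathELength 𝓘(ℝ, ℂ × ℂ) γ s₁ t₁ := by
    have h9 := enorm_sub_le_lintegral_derivWithin_Icc_of_contDiffOn_Icc (hfs.contDiffOn
      (s := Icc s₁ t₁)) hst
    calc ENNReal.ofReal m * ‖t.c (j + 1) (γ t₁) - t.c (j + 1) (γ s₁)‖ₑ
        ≤ ENNReal.ofReal m * ∫⁻ s in Icc s₁ t₁,
            ‖derivWithin (fun s => t.c (j + 1) (γ s)) (Icc s₁ t₁) s‖ₑ := by gcongr
      _ = ENNReal.ofReal m * ∫⁻ s in Ioo s₁ t₁,
            ‖derivWithin (fun s => t.c (j + 1) (γ s)) (Icc s₁ t₁) s‖ₑ := by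
          rw [restrict_Ioo_eq_restrict_Icc]
      _ = ENNReal.ofReal m * ∫⁻ s in Ioo s₁ t₁,
            ‖deriv (fun s => t.c (j + 1) (γ s)) s‖ₑ := by
          congr 1
          apply setLIntegral_congr_fun measurableSet_Ioo
          intro s hs
          simp only
          rw [derivWithin_of_mem_nhds (Icc_mem_nhds hs.1 hs.2)]
      _ = ∫⁻ s in Ioo s₁ t₁, ENNReal.ofReal m * ‖deriv (fun s => t.c (j + 1) (γ s)) s‖ₑ := by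
          rw [lintegral_const_mul' _ _ ENNReal.ofReal_ne_top]
      _ ≤ ∫⁻ s in Ioo s₁ t₁, ‖mfderiv 𝓘(ℝ, ℝ) 𝓘(ℝ, ℂ × ℂ) γ s 1‖ₑ :=
          setLIntegral_mono' measurableSet_Ioo key
      _ = pathELength 𝓘(ℝ, ℂ × ℂ) γ s₁ t₁ := pathELength_eq_lintegral_mfderiv_Ioo.symm
  have hbig : (1 : ℝ≥0∞) ≤ ENNReal.ofReal m * ‖t.c (j + 1) (γ t₁) - t.c (j + 1) (γ s₁)‖ₑ := by
    rw [← ofReal_norm, ← ENNReal.ofReal_mul hm.le]
    rw [show (1 : ℝ≥0∞) = ENNReal.ofReal 1 by simp]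
    apply ENNReal.ofReal_le_ofReal
    have h10 : t.R (j + 1) - ρ ≤ ‖t.c (j + 1) (γ t₁) - t.c (j + 1) (γ s₁)‖ := by
      have := norm_sub_norm_le (t.c (j + 1) (γ t₁)) (t.c (j + 1) (γ s₁))
      have hbt' : t.R (j + 1) ≤ ‖t.c (j + 1) (γ t₁)‖ := hbt
      have hbs' : ‖t.c (j + 1) (γ s₁)‖ ≤ ρ := hbs
      linarith
    calc (1 : ℝ) ≤ m * (t.R (j + 1) - ρ) := h1
      _ ≤ _ := by gcongr
  have hfin : (1 : ℝ≥0∞) ≤ pathELength 𝓘(ℝ, ℂ × ℂ) γ 0 1 :=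
    hbig.trans (hstep.trans (pathELength_mono hs0 ht1))
  exact absurd hlen (not_lt.2 hfin)

end Pool.Agent.H28.KC
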