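import Pool.Agent.H93.KC.Targets

open Set Metric Filter Topology Bundle Manifold MeasureTheory
open scoped ContDiff

noncomputable section

namespace Pool.Agent.H28.KC

open Pool.Agent.H93.KC

lemma R_pos (t : Tower) : ∀ j, 0 < t.R j := by
  intro j
  induction j with
  | zero => linarith [t.R_zero]
  | succ j ih =>
    obtain ⟨ρ, m, hm, h1, h2, -⟩ := t.far j
    have h3 : 0 ≤ ρ := by
      have h4 := h2 (t.ci j 0) (by rw [t.right]; simpa using ih.le)
      exact (norm_nonneg _).trans h4
    have h5 : 0 < t.R (j + 1) - ρ := by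
      by_contra h
      push Not at h
      have : m * (t.R (j + 1) - ρ) ≤ 0 := mul_nonpos_of_nonneg_of_nonpos hm.le h
      linarith
    linarith

lemma lt_succ (t : Tower) (j : ℕ) (x : E) (hx : ‖t.c j x‖ ≤ t.R j) :
    ‖t.c (j + 1) x‖ < t.R (j + 1) := by
  obtain ⟨ρ, m, hm, h1, h2, -⟩ := t.far j
  have h5 : 0 < t.R (j + 1) - ρ := by
    by_contra h
    push Not at h
    have : m * (t.R (j + 1) - ρ) ≤ 0 := mul_nonpos_of_nonneg_of_nonpos hm.le h
    linarith
  have := h2 x hx
  linarith

theorem nest : T_NEST := by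
  intro t
  have hle : ∀ i j, i ≤ j → ∀ x, ‖t.c i x‖ ≤ t.R i → ‖t.c j x‖ ≤ t.R j := by
    intro i j hij
    induction j, hij using Nat.le_induction with
    | base => intro x hx; exact hx
    | succ j hij ih => intro x hx; exact (lt_succ t j x (ih x hx)).le
  refine ⟨R_pos t, hle, ?_⟩
  intro i j hij x hx
  obtain ⟨k, rfl⟩ : ∃ k, j = k + 1 := ⟨j - 1, by omega⟩
  exact lt_succ t k x (hle i k (by omega) x hx)

end Pool.Agent.H28.KC
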