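import Pool.Agent.H93.KC.Targets

open Set Metric Filter Topology Bundle Manifold MeasureTheory
open scoped ContDiff

noncomputable section

namespace Pool.Agent.H28.KC

open Pool.Agent.H93.KC

lemma up (hN : T_NEST) (t : Tower) (i j : ℕ) (hij : i ≤ j) : ∀ y : E, ‖y‖ ≤ t.R i →
    AnalyticAt ℂ (fun y' => t.c j (t.ci i y')) y ∧
    (∀ v w : E, herm (t.u j) (t.c j (t.ci i y)) (fderiv ℂ (fun y' => t.c j (t.ci i y')) y v)
      (fderiv ℂ (fun y' => t.c j (t.ci i y')) y w) = herm (t.u i) y v w) ∧
    AnalyticAt ℂ (fun z => t.c i (t.ci j z)) (t.c j (t.ci i y)) := by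
  obtain ⟨hR, hle, -⟩ := hN t
  induction j, hij using Nat.le_induction with
  | base =>
    intro y hy
    have h1 : (fun y' => t.c i (t.ci i y')) = (fun y' : E => y') := by
      funext y'; exact t.right i y'
    rw [h1, t.right]
    refine ⟨analyticAt_id, fun v w => ?_, analyticAt_id⟩
    have h2 : fderiv ℂ (fun y' : E => y') y = ContinuousLinearMap.id ℂ E := fderiv_fun_id
    rw [h2]; rfl
  | succ j hij ih =>
    intro y hy
    obtain ⟨ha, hb, hc⟩ := ih y hy
    have hz : ‖t.c j (t.ci i y)‖ ≤ t.R j := hle i j hij _ (by rw [t.right]; exact hy)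
    have hz' : t.c j (t.ci i y) ∈ closedBall (0 : E) (t.R j) := by
      simpa using hz
    have hd := t.hol j _ hz'
    have hcomp : (fun y' => t.c (j + 1) (t.ci i y'))
        = (fun z => t.c (j + 1) (t.ci j z)) ∘ (fun y' => t.c j (t.ci i y')) := by
      funext y'
      simp only [Function.comp, t.left]
    have hval : t.c (j + 1) (t.ci i y) = t.c (j + 1) (t.ci j (t.c j (t.ci i y))) := by
      rw [t.left]
    refine ⟨?_, ?_, ?_⟩
    · rw [hcomp]
      exact AnalyticAt.comp hd ha
    · intro v w
      have hf : fderiv ℂ (fun y' => t.c (j + 1) (t.ci i y')) y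
          = (fderiv ℂ (fun z => t.c (j + 1) (t.ci j z)) (t.c j (t.ci i y))).comp
            (fderiv ℂ (fun y' => t.c j (t.ci i y')) y) := by
        rw [hcomp]
        exact fderiv_comp y hd.differentiableAt ha.differentiableAt
      rw [hf, hval]
      simp only [ContinuousLinearMap.comp_apply]
      rw [t.compat j _ hz', hb]
    · have hcomp2 : (fun z => t.c i (t.ci (j + 1) z))
          = (fun z => t.c i (t.ci j z)) ∘ (fun z => t.c j (t.ci (j + 1) z)) := by
        funext z
        simp only [Function.comp, t.left]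
      rw [hcomp2]
      have hd' := t.hol' j _ hz'
      rw [hval]
      refine AnalyticAt.comp ?_ hd'
      have : t.c j (t.ci (j + 1) (t.c (j + 1) (t.ci j (t.c j (t.ci i y)))))
          = t.c j (t.ci i y) := by
        rw [t.left, t.right]
      rw [this]
      exact hc

theorem trans (hN : T_NEST) : T_TRANS := by
  intro t i j y hy hz
  rcases le_total i j with hij | hij
  · obtain ⟨h1, h2, -⟩ := up hN t i j hij y hy.le
    exact ⟨h1, h2⟩
  · -- `z = c_j (ci_i y)`
    set z := t.c j (t.ci i y) with hzdef
    obtain ⟨h1, h2, h3⟩ := up hN t j i hij z hz.le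
    have hyz : t.c i (t.ci j z) = y := by
      rw [hzdef, t.left, t.right]
    rw [hyz] at h2 h3
    refine ⟨h3, fun v w => ?_⟩
    -- the derivatives are mutually inverse
    have hcomp : (fun y' => t.c i (t.ci j y')) ∘ (fun y' => t.c j (t.ci i y')) = id := by
      funext y'
      simp only [Function.comp, t.left, t.right, id]
    have hf : (fderiv ℂ (fun y' => t.c i (t.ci j y')) z).comp
        (fderiv ℂ (fun y' => t.c j (t.ci i y')) y) = ContinuousLinearMap.id ℂ E := by
      have h4 := fderiv_comp (𝕜 := ℂ) (f := fun y' => t.c j (t.ci i y'))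
        (g := fun y' => t.c i (t.ci j y')) y h1.differentiableAt h3.differentiableAt
      rw [hcomp, fderiv_id] at h4
      exact h4.symm
    have hv : ∀ v : E, fderiv ℂ (fun y' => t.c i (t.ci j y')) z
        (fderiv ℂ (fun y' => t.c j (t.ci i y')) y v) = v := by
      intro v
      have := congrArg (fun L : E →L[ℂ] E => L v) hf
      simpa using this
    rw [← h2, hv, hv]

end Pool.Agent.H28.KC
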